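import Mathlib

/-!
# Schur stability of `W (I - t B)`: a counterexample of order two

Let `W = [[3/5, 2/5], [1, 0]]`, a primitive stochastic matrix with left Perron eigenvector
`π = (5/7, 2/7)`, and let `B = [[89, -114], [-114, 184]] = 20 v vᵀ + u uᵀ` with `v = (2, -3)`,
`u = (3, 2)`. Then `B` is positive definite with `ϱ(B) = 260`, `B e = (-25, 70) ≤ ϱ(B) e` and
`πᵀ B e = 15/7 > 0`. For `t = 1/140 < 2/ϱ(B)` both `P(t) = W (I - t B)` and
`R(t) = I - W + (I + t B)⁻¹ (2 W - I)` have a real eigenvalue larger than `1`, because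
`det (I - P(t)) < 0` and `det (I - R(t)) < 0`.
-/

set_option autoImplicit false

open Matrix

namespace Pool.Agent.Results.MP_d721eb_al.UnstableOrderTwo

/-- `W` is stochastic: `W ≥ 0` and `W e = e`. -/
def IsStochastic {n : ℕ} (W : Matrix (Fin n) (Fin n) ℝ) : Prop :=
  (∀ i j, 0 ≤ W i j) ∧ ∀ i, ∑ j, W i j = 1

/-- `W` is primitive: some power `W ^ m`, `m ≥ 1`, has positive entries. -/
def IsPrimitive {n : ℕ} (W : Matrix (Fin n) (Fin n) ℝ) : Prop :=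
  ∃ m : ℕ, 1 ≤ m ∧ ∀ i j, 0 < (W ^ m) i j

/-- `π` is the left Perron eigenvector of `W`: `π > 0`, `πᵀ W = πᵀ`, `πᵀ e = 1`. -/
def IsLeftPerron {n : ℕ} (W : Matrix (Fin n) (Fin n) ℝ) (π : Fin n → ℝ) : Prop :=
  (∀ i, 0 < π i) ∧ π ᵥ* W = π ∧ ∑ i, π i = 1

/-- The spectral radius: the largest modulus of a complex eigenvalue. -/
noncomputable def rho {n : ℕ} (M : Matrix (Fin n) (Fin n) ℝ) : ℝ :=
  sSup {r : ℝ | ∃ z ∈ spectrum ℂ (M.map (fun x : ℝ => (x : ℂ))), r = ‖z‖}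

/-- `P(t) = W (I - t B)`. -/
def P {n : ℕ} (W B : Matrix (Fin n) (Fin n) ℝ) (t : ℝ) : Matrix (Fin n) (Fin n) ℝ :=
  W * (1 - t • B)

/-- `R(t) = I - W + (I + t B)⁻¹ (2 W - I)`. -/
noncomputable def R {n : ℕ} (W B : Matrix (Fin n) (Fin n) ℝ) (t : ℝ) : Matrix (Fin n) (Fin n) ℝ :=
  1 - W + (1 + t • B)⁻¹ * ((2 : ℝ) • W - 1)

theorem mem_spectrum_two (M : Matrix (Fin 2) (Fin 2) ℝ) (z : ℂ) :
    z ∈ spectrum ℂ (M.map (fun x : ℝ => (x : ℂ))) ↔
      (z - M 0 0) * (z - M 1 1) - (M 0 1 : ℂ) * (M 1 0 : ℂ) = 0 := by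
  rw [spectrum.mem_iff, Matrix.isUnit_iff_isUnit_det, isUnit_iff_ne_zero, not_not,
    Matrix.det_fin_two]
  simp [Matrix.algebraMap_matrix_apply]

theorem rho_bdd (M : Matrix (Fin 2) (Fin 2) ℝ) :
    BddAbove {r : ℝ | ∃ z ∈ spectrum ℂ (M.map (fun x : ℝ => (x : ℂ))), r = ‖z‖} := by
  refine ⟨1 + ‖(M 0 0 : ℂ)‖ + ‖(M 1 1 : ℂ)‖ + ‖(M 0 1 : ℂ)‖ * ‖(M 1 0 : ℂ)‖ +
    ‖(M 0 0 : ℂ)‖ * ‖(M 1 1 : ℂ)‖, ?_⟩
  rintro r ⟨z, hz, rfl⟩
  rw [mem_spectrum_two] at hz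
  have h1 : z * z = (M 0 0 : ℂ) * z + (M 1 1 : ℂ) * z + (M 0 1 : ℂ) * (M 1 0 : ℂ) -
      (M 0 0 : ℂ) * (M 1 1 : ℂ) := by linear_combination hz
  have h2 : ‖z‖ * ‖z‖ ≤ ‖(M 0 0 : ℂ)‖ * ‖z‖ + ‖(M 1 1 : ℂ)‖ * ‖z‖ +
      ‖(M 0 1 : ℂ)‖ * ‖(M 1 0 : ℂ)‖ + ‖(M 0 0 : ℂ)‖ * ‖(M 1 1 : ℂ)‖ := by
    rw [← norm_mul, h1]
    refine le_trans (norm_sub_le _ _) ?_
    refine add_le_add (le_trans (norm_add_le _ _) (add_le_add (le_trans (norm_add_le _ _) ?_) ?_)) ?_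
    · rw [norm_mul, norm_mul]
    · rw [norm_mul]
    · rw [norm_mul]
  have a1 := norm_nonneg (M 0 0 : ℂ)
  have a2 := norm_nonneg (M 1 1 : ℂ)
  have a3 := norm_nonneg (M 0 1 : ℂ)
  have a4 := norm_nonneg (M 1 0 : ℂ)
  have a5 := norm_nonneg z
  by_contra hc
  push Not at hc
  nlinarith [mul_nonneg a3 a4, mul_nonneg a1 a2]

/-- A real `2 × 2` matrix with `det (I - M) < 0` has spectral radius larger than `1`. -/
theorem one_lt_rho (M : Matrix (Fin 2) (Fin 2) ℝ)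
    (h : (1 - M 0 0) * (1 - M 1 1) - M 0 1 * M 1 0 < 0) : 1 < rho M := by
  let f : ℝ → ℝ := fun x => (x - M 0 0) * (x - M 1 1) - M 0 1 * M 1 0
  set K : ℝ := 1 + |M 0 0| + |M 1 1| + |M 0 1 * M 1 0| with hK
  have hK1 : 1 ≤ K := by
    have := abs_nonneg (M 0 0); have := abs_nonneg (M 1 1); have := abs_nonneg (M 0 1 * M 1 0)
    linarith
  have hfK : 0 < f K := by
    have e1 := le_abs_self (M 0 0)
    have e2 := le_abs_self (M 1 1)
    have e3 := le_abs_self (M 0 1 * M 1 0)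
    have e4 := abs_nonneg (M 0 0)
    have e5 := abs_nonneg (M 1 1)
    have e6 := abs_nonneg (M 0 1 * M 1 0)
    have g1 : 1 + |M 0 1 * M 1 0| ≤ K - M 0 0 := by linarith
    have g2 : 1 ≤ K - M 1 1 := by linarith
    have g3 : 1 + |M 0 1 * M 1 0| ≤ (K - M 0 0) * (K - M 1 1) := by nlinarith
    show 0 < (K - M 0 0) * (K - M 1 1) - M 0 1 * M 1 0
    linarith
  have hcont : ContinuousOn f (Set.Icc 1 K) := by
    apply Continuous.continuousOn; fun_prop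
  have hmem : (0 : ℝ) ∈ Set.Icc (f 1) (f K) := ⟨h.le, hfK.le⟩
  obtain ⟨x, hx1, hx2⟩ := intermediate_value_Icc hK1 hcont hmem
  have hx3 : 1 < x := by
    rcases lt_or_eq_of_le hx1.1 with h1 | h1
    · exact h1
    · exfalso
      rw [← h1] at hx2
      have : f 1 < 0 := h
      linarith
  have hspec : (x : ℂ) ∈ spectrum ℂ (M.map (fun x : ℝ => (x : ℂ))) := by
    rw [mem_spectrum_two]
    have h2 : (x - M 0 0) * (x - M 1 1) - M 0 1 * M 1 0 = 0 := hx2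
    exact_mod_cast h2
  have h3 : x ≤ rho M := by
    apply le_csSup (rho_bdd M)
    refine ⟨(x : ℂ), hspec, ?_⟩
    rw [Complex.norm_real, Real.norm_eq_abs, abs_of_pos (by linarith)]
  linarith

/-- the matrix `W` -/
noncomputable def W₀ : Matrix (Fin 2) (Fin 2) ℝ := !![3 / 5, 2 / 5; 1, 0]

/-- the matrix `B` -/
def B₀ : Matrix (Fin 2) (Fin 2) ℝ := !![89, -114; -114, 184]

/-- the vector `π` -/
noncomputable def π₀ : Fin 2 → ℝ := ![5 / 7, 2 / 7]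

theorem rho_B : rho B₀ = 260 := by
  have h1 : ∀ z : ℂ, z ∈ spectrum ℂ (B₀.map (fun x : ℝ => (x : ℂ))) ↔ z = 260 ∨ z = 13 := by
    intro z
    rw [mem_spectrum_two]
    simp only [B₀, Matrix.cons_val', Matrix.cons_val_zero, Matrix.cons_val_one, Matrix.of_apply,
      Matrix.cons_val_fin_one]
    push_cast
    constructor
    · intro h
      have h2 : (z - 260) * (z - 13) = 0 := by linear_combination h
      rcases mul_eq_zero.1 h2 with h3 | h3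
      · left; exact sub_eq_zero.1 h3
      · right; exact sub_eq_zero.1 h3
    · rintro (rfl | rfl) <;> norm_num
  unfold rho
  have h2 : {r : ℝ | ∃ z ∈ spectrum ℂ (B₀.map (fun x : ℝ => (x : ℂ))), r = ‖z‖} = {260, 13} := by
    ext r
    simp only [Set.mem_ofPred_eq, h1, Set.mem_insert_iff, Set.mem_singleton_iff]
    constructor
    · rintro ⟨z, rfl | rfl, rfl⟩
      · left; norm_num
      · right; norm_num
    · rintro (rfl | rfl)
      · exact ⟨260, Or.inl rfl, by norm_num⟩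
      · exact ⟨13, Or.inr rfl, by norm_num⟩
  rw [h2, csSup_insert (by simp) (by simp), csSup_singleton]
  norm_num

theorem P_eq : P W₀ B₀ (1 / 140) = !![381 / 700, 127 / 350; 51 / 140, 57 / 70] := by
  ext i j
  fin_cases i <;> fin_cases j <;>
    simp [P, W₀, B₀, Matrix.mul_apply, Fin.sum_univ_two, Matrix.sub_apply, Matrix.smul_apply] <;>
    norm_num

theorem inv_eq : (1 + (1 / 140 : ℝ) • B₀)⁻¹ = !![63 / 85, 133 / 510; 133 / 510, 1603 / 3060] := by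
  apply Matrix.inv_eq_right_inv
  ext i j
  fin_cases i <;> fin_cases j <;>
    simp [B₀, Matrix.mul_apply, Fin.sum_univ_two, Matrix.add_apply, Matrix.smul_apply] <;>
    norm_num

theorem R_eq : R W₀ B₀ (1 / 140) =
    !![1364 / 1275, -173 / 2550; 382 / 3825, 10477 / 15300] := by
  have h1 : (2 : ℝ) • W₀ - 1 = !![1 / 5, 4 / 5; 2, -1] := by
    ext i j
    fin_cases i <;> fin_cases j <;> simp [W₀] <;> norm_num
  have h2 : 1 - W₀ = !![2 / 5, -2 / 5; -1, 1] := by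
    ext i j
    fin_cases i <;> fin_cases j <;> simp [W₀] <;> norm_num
  unfold R
  rw [inv_eq, h1, h2, Matrix.mul_fin_two]
  ext i j
  fin_cases i <;> fin_cases j <;> simp <;> norm_num

/-- **Q1 is false, already for `n = 2`.** There are a primitive stochastic `2 × 2` matrix `W` with
left Perron eigenvector `π`, a positive semidefinite `B` with `B e ≤ ϱ(B) e` and `πᵀ B e > 0`, and
`t ∈ (0, 2/ϱ(B))` with `ϱ(P(t)) > 1` and `ϱ(R(t)) > 1`. In particular neither of the two conclusions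
of Q1 holds in general. -/
theorem result :
    (∃ (W B : Matrix (Fin 2) (Fin 2) ℝ) (π : Fin 2 → ℝ) (t : ℝ),
      IsStochastic W ∧ IsPrimitive W ∧ IsLeftPerron W π ∧ B.PosSemidef ∧
      (∀ i, (B *ᵥ fun _ => 1) i ≤ rho B) ∧ 0 < π ⬝ᵥ (B *ᵥ fun _ => 1) ∧
      0 < t ∧ t < 2 / rho B ∧ 1 < rho (P W B t) ∧ 1 < rho (R W B t)) ∧
    ¬ (∀ (n : ℕ) (W B : Matrix (Fin n) (Fin n) ℝ) (π : Fin n → ℝ), 1 ≤ n →
      IsStochastic W → IsPrimitive W → IsLeftPerron W π → B.PosSemidef →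
      (∀ i, (B *ᵥ fun _ => 1) i ≤ rho B) → 0 < π ⬝ᵥ (B *ᵥ fun _ => 1) →
      ∀ t : ℝ, 0 < t → t < 2 / rho B → rho (P W B t) < 1 ∧ rho (R W B t) < 1) := by
  have key : IsStochastic W₀ ∧ IsPrimitive W₀ ∧ IsLeftPerron W₀ π₀ ∧ B₀.PosSemidef ∧
      (∀ i, (B₀ *ᵥ fun _ => 1) i ≤ rho B₀) ∧ 0 < π₀ ⬝ᵥ (B₀ *ᵥ fun _ => 1) ∧
      (0 : ℝ) < 1 / 140 ∧ 1 / 140 < 2 / rho B₀ ∧ 1 < rho (P W₀ B₀ (1 / 140)) ∧
      1 < rho (R W₀ B₀ (1 / 140)) := by
    refine ⟨⟨?_, ?_⟩, ⟨2, by norm_num, ?_⟩, ⟨?_, ?_, ?_⟩, ?_, ?_, ?_, by norm_num, ?_, ?_, ?_⟩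
    · intro i j
      fin_cases i <;> fin_cases j <;> simp [W₀] <;> norm_num
    · intro i
      fin_cases i <;> simp [W₀, Fin.sum_univ_two] <;> norm_num
    · intro i j
      rw [pow_two]
      fin_cases i <;> fin_cases j <;> simp [W₀, Matrix.mul_apply, Fin.sum_univ_two] <;> norm_num
    · intro i
      fin_cases i <;> simp [π₀]
    · funext j
      fin_cases j <;> simp [π₀, W₀, Matrix.vecMul, dotProduct, Fin.sum_univ_two] <;> norm_num
    · simp [π₀, Fin.sum_univ_two]; norm_num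
    · refine Matrix.PosSemidef.of_dotProduct_mulVec_nonneg ?_ ?_
      · ext i j
        fin_cases i <;> fin_cases j <;> simp [B₀]
      · intro x
        simp [B₀, Matrix.mulVec, dotProduct, Fin.sum_univ_two]
        nlinarith [sq_nonneg (2 * x 0 - 3 * x 1), sq_nonneg (3 * x 0 + 2 * x 1)]
    · intro i
      rw [rho_B]
      fin_cases i <;> simp [B₀, Matrix.mulVec, dotProduct, Fin.sum_univ_two] <;> norm_num
    · simp [π₀, B₀, Matrix.mulVec, dotProduct, Fin.sum_univ_two]; norm_num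
    · rw [rho_B]; norm_num
    · apply one_lt_rho
      rw [P_eq]
      simp; norm_num
    · apply one_lt_rho
      rw [R_eq]
      simp; norm_num
  refine ⟨⟨W₀, B₀, π₀, 1 / 140, key⟩, ?_⟩
  intro hall
  obtain ⟨k1, k2, k3, k4, k5, k6, k7, k8, k9, _⟩ := key
  exact absurd (hall 2 W₀ B₀ π₀ (by norm_num) k1 k2 k3 k4 k5 k6 (1 / 140) k7 k8).1
    (not_lt.2 k9.le)

end Pool.Agent.Results.MP_d721eb_al.UnstableOrderTwo
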